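import Pool.Agent.MP_223ae3_pr.Prob

/-!
# Stability of the third-moment Khintchine inequality

`E|S|³ ≤ E|Sₙ|³ - D(a) / 1000` for every `n ≥ 1` and every unit vector `a ∈ ℝⁿ`.

Idea of the proof.  Let `a` be a largest weight and `b` any other one.  Replacing both by
`√((a² + b²) / 2)` raises the third absolute moment by at least `(a² - b²)² / 1600`: conditionally
on the rest `X` of the sum the gain is nonnegative, it is at least `(a² - b²)² / (100 a)` when
`|X| ≤ a`, and `P(|X| ≤ a) ≥ a / 16` by the reflection principle.  The replacement lowers `D` by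
`(a² - b²)² / 2`.  Hence `E|S|³ + (1/1000) ∑ aᵢ⁴` is maximal on the unit sphere only at vectors
with all `|aᵢ|` equal.
-/

namespace Pool.Agent.Results.MP_223ae3_pr.ThirdMomentStability

open Finset MeasureTheory ProbabilityTheory Pool.Agent.MP_223ae3_pr

universe u

/-- The stability inequality `E|S|³ ≤ E|Sₙ|³ - C₃ D(a)` with `C₃ = 1/1000`. -/
theorem result : ∀ (n : ℕ), 1 ≤ n → ∀ a : Fin n → ℝ, ∑ i, a i ^ 2 = 1 →
    ∀ (Ω : Type u) [MeasurableSpace Ω] (P : Measure Ω) [IsProbabilityMeasure P]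
      (ε : Fin n → Ω → ℝ), (∀ i, Measurable (ε i)) → iIndepFun ε P →
      (∀ i, P {ω | ε i ω = 1} = 1 / 2) → (∀ i, P {ω | ε i ω = -1} = 1 / 2) →
      ∫ ω, |∑ i, a i * ε i ω| ^ 3 ∂P ≤
        ∫ ω, |(1 / Real.sqrt n) * ∑ i, ε i ω| ^ 3 ∂P -
          1 / 1000 * ∑ i, (a i ^ 2 - 1 / (n : ℝ)) ^ 2 := by
  intro n hn a ha Ω _ P _ ε hmeas hind h1 h2
  have hS := (integral_avg hmeas hind h1 h2 cube continuous_cube.measurable a univ 0).2
  have hSn := (integral_avg hmeas hind h1 h2 cube continuous_cube.measurable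
    (fun _ => 1 / Real.sqrt n) univ 0).2
  simp only [zero_add, cube, ← Finset.mul_sum] at hS hSn
  rw [hS, hSn]
  exact stability hn a ha

end Pool.Agent.Results.MP_223ae3_pr.ThirdMomentStability
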